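import Pool.Agent.Q100.GurMain

/-!
# MP_40d550: a non-separable weakly compactly generated Gurarii space

The definitions are in `Pool/Agent/Q100/GurDefs.lean`.
-/

set_option autoImplicit false

namespace Pool.Agent.Results.MP_40d550_an.WCGGurarii

open Q100.Gur

universe u

/-- There is a non-separable real Banach space which is a Gurarii space, weakly compactly generated
and weakly Lindelöf determined. -/
theorem result :
    ∃ (E : Type) (_ : NormedAddCommGroup E) (_ : NormedSpace ℝ E), CompleteSpace E ∧
      ¬ TopologicalSpace.SeparableSpace E ∧ IsGurarii.{u} E ∧ WCG E ∧ WLD E :=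
  ⟨Q100.Gur.E, inferInstance, inferInstance, inferInstance, not_separable, gurarii, wcg, wld⟩

end Pool.Agent.Results.MP_40d550_an.WCGGurarii
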